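import Pool.Agent.Work.MP_b17785_an.Lip.Defs
import Pool.Agent.Work.MP_b17785_an.Lip.StmtsE

/-!
# The explicit form of the Lipschitz norm of multipliers of `S`, upper bound: definitions

`St` : the strip `|Im U| < π`.  `kb` : the Koebe function.  `hm` : the holomorphic map of the strip
onto the disk without `(-1, 0]` with `kb (hm U) = exp U`.  `Sp P` : the properties of
`P = f ∘ hm` which are used (`f ∈ S` with at most one omitted value on every circle).
`En P x` : the energy `∬_{|P| < e^x} |P'/P - 1|^2`.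
-/

set_option autoImplicit false

open Complex Metric Set Filter Topology MeasureTheory
open scoped ENNReal

namespace Pool.Agent.MultS.UB

/-- The strip. -/
def St : Set ℂ := {U : ℂ | -Real.pi < U.im ∧ U.im < Real.pi}

/-- The Koebe function. -/
noncomputable def kb (z : ℂ) : ℂ := z / (1 - z) ^ 2

/-- The map of the strip onto the disk without `(-1, 0]`, `kb (hm U) = exp U`. -/
noncomputable def hm (U : ℂ) : ℂ := Lip.phi ((1 + 4 * exp U) ^ (1 / 2 : ℂ))

/-- The properties of `P = f ∘ hm`. -/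
structure Sp (P : ℂ → ℂ) : Prop where
  /-- holomorphic -/
  hol : DifferentiableOn ℂ P St
  /-- injective -/
  inj : InjOn P St
  /-- without zeros -/
  ne : ∀ U ∈ St, P U ≠ 0
  /-- normalisation at `-∞` -/
  nrm : ∀ ε : ℝ, 0 < ε → ∃ L : ℝ, ∀ U ∈ St, (U.re ≤ -L ∨ ‖P U‖ ≤ Real.exp (-L)) →
    |Real.log ‖P U‖ - U.re| ≤ ε
  /-- unbounded -/
  unb : ∀ s : ℝ, ∃ U ∈ St, s < ‖P U‖
  /-- the set `|P| < s` meets all the vertical lines left of its points -/
  crl : ∀ (U : ℂ) (s u : ℝ), U ∈ St → ‖P U‖ < s → u < U.re →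
    ∃ φ ∈ Ioo (-Real.pi) Real.pi, ‖P ((u : ℂ) + (φ : ℝ) * I)‖ < s
  /-- the set `|P| > s` meets all the vertical lines right of its points -/
  crg : ∀ (U : ℂ) (s u : ℝ), U ∈ St → s < ‖P U‖ → U.re < u →
    ∃ φ ∈ Ioo (-Real.pi) Real.pi, s < ‖P ((u : ℂ) + (φ : ℝ) * I)‖

/-- The energy. -/
noncomputable def En (P : ℂ → ℂ) (x : ℝ) : ℝ≥0∞ :=
  ∫⁻ U in {U : ℂ | U ∈ St ∧ ‖P U‖ < Real.exp x}, ENNReal.ofReal (‖deriv P U / P U - 1‖ ^ 2)

/-- The quotient `f / kb`. -/
noncomputable def Aq (f : ℂ → ℂ) (z : ℂ) : ℂ := dslope f 0 z * (1 - z) ^ 2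

end Pool.Agent.MultS.UB
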