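import Pool.Agent.Work.MP_b17785_an.Bd.B08

/-!
# The explicit form of the Lipschitz norm of multipliers of `S`, upper bound: statements

MAIN RESULT OF THE BLOCK (`Dir`): if `f ∈ S` omits at most one value on every circle around `0`
and `|f z| |1-z|^2` is bounded, then `A = f/kb` satisfies `|A| ≤ C` and `∬_D |A'|^2 ≤ C` with an
absolute constant `C`.

PLAN. With `P = f ∘ hm` on the strip `St` (`kb (hm U) = exp U`), `q = P'/P`, `(P e^{-U})' =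
P e^{-U} (q - 1)`.  (Crs) crossing lemma: `|P U₁| ≤ e^a`, `|P U₂| ≥ e^{a+1}` imply
`Re U₁ - Re U₂ ≤ 4π²` (length and area on vertical lines).  (Energy) `∬_{|P|<e^x} |q-1|² ≤
2π(m-x)` if `{|P| ≤ e^x} ⊆ {Re U ≤ m}`.  (Star) hence `|P| ≤ e^{4π²+1} e^{Re U} exp(-En/2π)`.
(Ring), (Ser): the sum over the rings `e^i ≤ |P| < e^{i+1}` converges.

Every item is a `def X : Prop`; prove `theorem prfX ... : X` in the file named in the item.  If the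
docstring says (uses P, Q), take `(hP : P) (hQ : Q)` as hypotheses.  `hasDerivAt_log_norm`
(file LogD) is proved: `(log ‖F u‖)' = Re (F'/F)`.
-/

set_option autoImplicit false

open Complex Metric Set Filter Topology MeasureTheory
open scoped ENNReal

namespace Pool.Agent.MultS.UB

/-! ### Tools -/

/-- [U1] Change of variables for an injective holomorphic map. PROOF: as in `Lip/ChVar.lean` (the
lemmas `ChVar'.mulR`, `ChVar'.det_mulR` may be used): `F` has at every `z ∈ E` the real derivative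
`ChVar'.mulR (deriv F z)` with determinant `‖deriv F z‖²`;
`lintegral_image_eq_lintegral_abs_det_fderiv_mul`. -/
def Chg : Prop :=
  ∀ (O : Set ℂ) (F : ℂ → ℂ), IsOpen O → DifferentiableOn ℂ F O → InjOn F O →
    ∀ E : Set ℂ, E ⊆ O → MeasurableSet E → ∀ G : ℂ → ℝ≥0∞,
      ∫⁻ w in F '' E, G w = ∫⁻ z in E, ENNReal.ofReal (‖deriv F z‖ ^ 2) * G (F z)

/-- [U2] Fubini, vertical lines inside. PROOF: `G' = E.indicator G` is a.e. measurable on `ℂ`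
(`aemeasurable_indicator_iff`), `Complex.volume_preserving_equiv_real_prod` (inverse
`(x, y) ↦ x + y I`) and `lintegral_prod`; the inner integral of the indicator is the integral over
the slice (measurable as the preimage of `E` under a continuous map). -/
def Fub : Prop :=
  ∀ E : Set ℂ, MeasurableSet E → ∀ G : ℂ → ℝ≥0∞, AEMeasurable G (volume.restrict E) →
    ∫⁻ U in E, G U =
      ∫⁻ u : ℝ, ∫⁻ φ in {φ : ℝ | (u : ℂ) + (φ : ℂ) * I ∈ E}, G ((u : ℂ) + (φ : ℂ) * I)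

/-- [U3] Fubini for the Bochner integral, horizontal lines inside. PROOF: as [U2] with
`MeasureTheory.integral_prod_symm` and `E.indicator g` (integrable). -/
def FubB : Prop :=
  ∀ E : Set ℂ, MeasurableSet E → ∀ g : ℂ → ℝ, IntegrableOn g E →
    ∫ U in E, g U =
      ∫ φ : ℝ, ∫ u in {u : ℝ | (u : ℂ) + (φ : ℂ) * I ∈ E}, g ((u : ℂ) + (φ : ℂ) * I)

/-- [U4] The logarithmic area of an annulus. PROOF: polar coordinates
(`Complex.lintegral_comp_polarCoord_symm`, see `lemma polar` in `Lip/E11.lean`): the integral is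
`∫_{-π}^{π} ∫_{e^a ≤ r < e^b} r · r^{-2} dr dθ = 2π (log e^b - log e^a)` (`integral_inv_of_pos`,
`ofReal_integral_eq_lintegral_ofReal`). -/
def Ann : Prop :=
  ∀ a b : ℝ, a ≤ b →
    ∫⁻ w in {w : ℂ | Real.exp a ≤ ‖w‖ ∧ ‖w‖ < Real.exp b}, ENNReal.ofReal ((‖w‖ ^ 2)⁻¹) ≤
      ENNReal.ofReal (2 * Real.pi * (b - a))

/-- [U5] (uses Fub) Two integrals over parts of the strip. PROOF: Fubini; the slice is
`Ioo (-π) π` if `r ≤ u` (`a < u ≤ b`) and empty otherwise, so the integrals are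
`∫⁻_{u ≥ r} 2π e^{-2u} = π e^{-2r}` (`integral_exp_neg_Ioi`-type lemma with a substitution, or
`integrableOn_exp_mul_Ioi`/`integral_Ioi_of_hasDerivAt_of_tendsto'` with the primitive
`-e^{-2u}/2`) and `∫⁻_{a<u≤b} 2π`. -/
def Tail : Prop :=
  (∀ r : ℝ, ∫⁻ U in {U : ℂ | U ∈ St ∧ r ≤ U.re}, ENNReal.ofReal (Real.exp (-(2 * U.re))) ≤
    ENNReal.ofReal (Real.pi * Real.exp (-(2 * r)))) ∧
  ∀ a b : ℝ, a ≤ b → volume {U : ℂ | U ∈ St ∧ a < U.re ∧ U.re ≤ b} ≤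
    ENNReal.ofReal (2 * Real.pi * (b - a))

/-- [U6] The fundamental theorem of calculus for `min h x`. PROOF: let `F u = min (h u) x`,
`G u = if h u < x then h' u else 0`, and `S = {u ∈ (a, b) : h u = x, h' u ≠ 0}`. Every point of
`S` is isolated in `S` (`h` has a nonzero derivative there: `HasDerivAt.eventually_ne`), so `S` is
countable (e.g. `Set.countable_setOf_isolated_right_within` or: a set all of whose points are
isolated has the discrete topology, and `countable_of_Lindelof_of_discrete`). For `u ∈ (a,b) \ S`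
`F` has the derivative `G u`: if `h u < x`, `F = h` near `u`; if `h u > x`, `F = x` near `u`; if
`h u = x` and `h' u = 0`, then `|F v - F u| ≤ |h v - h u| = o(v - u)`. `G` is measurable and
bounded (`h'` is continuous on `[a,b]`), so integrable. Conclude by
`intervalIntegral.integral_eq_sub_of_hasDeriv_right`-type
`MeasureTheory.integral_eq_of_hasDerivWithinAt_off_countable_of_le` (or
`intervalIntegral.integral_eq_of_hasDerivAt_off_countable...`). -/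
def Ray : Prop :=
  ∀ (h h' : ℝ → ℝ) (a b x : ℝ), a ≤ b → (∀ u ∈ Icc a b, HasDerivAt h (h' u) u) →
    ContinuousOn h' (Icc a b) →
    IntervalIntegrable (fun u => if h u < x then h' u else 0) volume a b ∧
    ∫ u in a..b, (if h u < x then h' u else 0) = min (h b) x - min (h a) x

/-- [U7] (uses Ray) One vertical line. PROOF: let `s ≠ t` be the two points (`h s ≤ a < b ≤ h t`);
say `s < t` (the other case is symmetric: reflect, or use the interval `[t, s]` with the opposite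
sign). By Ray with `x = b` and `x = a` and subtraction,
`∫_s^t 1_{a ≤ h < b} h' = (min (h t) b - min (h t) a) - (min (h s) b - min (h s) a) = b - a`.
So `b - a ≤ ∫_{[s,t]} 1_{a ≤ h < b} |h'|`, and by Cauchy-Schwarz (the length is `≤ 2π`; or
integrate `|h'| ≤ c/2 + h'^2/(2c)`) `(b-a)² ≤ 2π ∫ 1_{a ≤ h < b} h'^2`. If the right side is `∞`
there is nothing to prove. -/
def Cross : Prop :=
  ∀ (h h' : ℝ → ℝ) (a b s t : ℝ), s ∈ Ioo (-Real.pi) Real.pi → t ∈ Ioo (-Real.pi) Real.pi →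
    (∀ φ ∈ Ioo (-Real.pi) Real.pi, HasDerivAt h (h' φ) φ) →
    ContinuousOn h' (Ioo (-Real.pi) Real.pi) → a < b → h s ≤ a → b ≤ h t →
    ENNReal.ofReal ((b - a) ^ 2) ≤ ENNReal.ofReal (2 * Real.pi) *
      ∫⁻ φ in {φ : ℝ | φ ∈ Ioo (-Real.pi) Real.pi ∧ a ≤ h φ ∧ h φ < b}, ENNReal.ofReal (h' φ ^ 2)

/-- [U14] A sum. PROOF: enough for finite sums (`ENNReal.tsum_le_of_sum_le`-type:
`ENNReal.tsum_eq_iSup_sum`, `iSup_le`), and a finite set of integers is contained in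
`Finset.Ico (-N) N`. Put `t i = min 1 (E (i+1) - E i) ∈ [0,1]` and `T i = ∑ t j` over
`-N ≤ j < i` (`T (-N) = 0`). Then `T (i+1) = T i + t i`, and `E (i-1) ≥ T (i+1) - 2`: for
`i ≥ -N+1` `T (i+1) ≤ T (i-1) + 2` and `T (i-1) ≤ E (i-1) - E (-N) ≤ E (i-1)`; for `i = -N`
`T (i+1) ≤ 1`. As `x e^{-x} ≤ 1 - e^{-x}` for `x ≥ 0` (`Real.add_one_le_exp`),
`e^{-E(i-1)/π} t i ≤ e^{2/π} e^{-T(i+1)/π} t i ≤ π e^{2/π} (e^{-T i/π} - e^{-T(i+1)/π})`;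
telescoping gives `≤ π e^{2/π}`. -/
def Ser : Prop :=
  ∀ E : ℤ → ℝ, Monotone E → (∀ i, 0 ≤ E i) →
    ∑' i : ℤ, ENNReal.ofReal (Real.exp (-(E (i - 1) / Real.pi)) * min 1 (E (i + 1) - E i)) ≤
      ENNReal.ofReal (Real.pi * Real.exp (2 / Real.pi))

/-! ### The strip -/

/-- [U8] (uses Chg, Ann) The length-area bound. PROOF: `E` = the set on the left, measurable
(`P` is continuous on the open set `St`; see `lemma measE` in `Lip/E11.lean`). By Chg with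
`F = P`, `O = St`, `G w = ofReal ((‖w‖²)⁻¹)`: the integral is `∫⁻_{P '' E} G`, because
`‖P'/P‖² = ‖P'‖² (‖P‖²)⁻¹`, and `P '' E` is contained in the annulus of Ann. -/
def Area : Prop :=
  ∀ P : ℂ → ℂ, Sp P → ∀ a b : ℝ, a ≤ b →
    ∫⁻ U in {U : ℂ | U ∈ St ∧ Real.exp a ≤ ‖P U‖ ∧ ‖P U‖ < Real.exp b},
      ENNReal.ofReal (‖deriv P U / P U‖ ^ 2) ≤ ENNReal.ofReal (2 * Real.pi * (b - a))

/-- [U9] (uses Area, Cross, Fub) The crossing lemma. PROOF: we may suppose `Re U₂ < Re U₁`. Fix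
`u` strictly between. For small `ε > 0` there are by `Sp.crl` (`s = e^{a+ε}`) and `Sp.crg`
(`s = e^{a+1-ε}`) points `φ₁, φ₂ ∈ (-π, π)` with `‖P (u+iφ₁)‖ < e^{a+ε}`,
`‖P (u+iφ₂)‖ > e^{a+1-ε}`. Put `h φ = log ‖P (u+iφ)‖`, `h' φ = Re (i P'/P (u+iφ))`
(`hasDerivAt_log_norm`), `h'^2 ≤ ‖P'/P‖²`. Cross with `a+ε, a+1-ε` and enlarging the domain:
`(1-2ε)² ≤ 2π I(u)` with `I(u) = ∫⁻ ‖P'/P (u+iφ)‖²` over
`{φ ∈ (-π,π) : e^a ≤ ‖P (u+iφ)‖ < e^{a+1}}`; `ε → 0` gives `1 ≤ 2π I(u)`. Integrate over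
`u ∈ (Re U₂, Re U₁)`: by Fub and Area `Re U₁ - Re U₂ ≤ 2π · 2π`. -/
def Crs : Prop :=
  ∀ P : ℂ → ℂ, Sp P → ∀ U₁ ∈ St, ∀ U₂ ∈ St, ∀ a : ℝ, ‖P U₁‖ ≤ Real.exp a →
    Real.exp (a + 1) ≤ ‖P U₂‖ → U₁.re - U₂.re ≤ 4 * Real.pi ^ 2

/-- [U10] (uses Ray, FubB) The cross term. PROOF: `Ω` = the set on the left, open. FubB: the left
side is `∫_φ ∫_{slice}`; the slice is empty for `φ ∉ (-π, π)`. For `φ ∈ (-π,π)` put
`h u = log ‖P (u+iφ)‖`, `h' u = Re (P'/P)(u+iφ)` (`hasDerivAt_log_norm`), `b = max m (-L) + 1`.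
If `‖P (u+iφ)‖ < e^x` then `u ≤ m < b`, so the slice is `{u ∈ (-L, b) : h u < x}`, and
`h b ≥ x`, `h (-L) < x`. By Ray on `[-L, b]` the inner integral is
`min (h b) x - min (h (-L)) x = x - h (-L)`. -/
def CrT : Prop :=
  ∀ P : ℂ → ℂ, Sp P → ∀ x m L : ℝ, (∀ U ∈ St, ‖P U‖ ≤ Real.exp x → U.re ≤ m) →
    (∀ φ ∈ Ioo (-Real.pi) Real.pi, ‖P (((-L : ℝ) : ℂ) + (φ : ℂ) * I)‖ < Real.exp x) →
    IntegrableOn (fun U : ℂ => (deriv P U / P U).re)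
      {U : ℂ | U ∈ St ∧ -L < U.re ∧ ‖P U‖ < Real.exp x} →
    ∫ U in {U : ℂ | U ∈ St ∧ -L < U.re ∧ ‖P U‖ < Real.exp x}, (deriv P U / P U).re =
      ∫ φ in Ioo (-Real.pi) Real.pi, (x - Real.log ‖P (((-L : ℝ) : ℂ) + (φ : ℂ) * I)‖)

/-- [U11] (uses CrT, Area, Tail) The energy estimate. PROOF: let `0 < ε < 1`, `L₀` from `Sp.nrm`
and `L ≥ max L₀ 0` with `-L + ε < x`; `Ω = {U ∈ St : -L < Re U, ‖P U‖ < e^x}`, `q = P'/P`.
(i) `|log ‖P (-L+iφ)‖ + L| ≤ ε` by `nrm`, so `‖P (-L+iφ)‖ < e^x`, and `-L ≤ m`.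
(ii) on `Ω`: `‖P U‖ ≥ e^{-L-ε}` (otherwise `‖P U‖ ≤ e^{-L₀}` and by `nrm`
`Re U ≤ log ‖P U‖ + ε < -L`). So `∫⁻_Ω ‖q‖² ≤ 2π (x + L + ε)` (Area), and
`vol Ω ≤ 2π (m + L)` (Tail.2). Hence `‖q‖²`, `1`, `Re q` and `‖q-1‖² = ‖q‖² + 1 - 2 Re q` are
integrable on `Ω`. (iii) CrT: `∫_Ω Re q = ∫_φ (x - log ‖P (-L+iφ)‖) ≥ 2π (x + L - ε)` (the
integrand is continuous and bounded). So
`∫_Ω ‖q-1‖² ≤ 2π (x+L+ε) + 2π (m+L) - 4π (x+L-ε) = 2π (m-x) + 6π ε`.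
(iv) in particular `0 ≤ 2π (m-x) + 6πε`; `Ω = Ω_L` increases to the domain of `En P x` as
`L → ∞` (monotone convergence: `lintegral_iUnion_of_directed` or `setLIntegral` + `iSup`), so
`En P x ≤ ofReal (2π (m-x) + 6πε)` for all small `ε`. -/
def Energy : Prop :=
  ∀ P : ℂ → ℂ, Sp P → ∀ x m : ℝ, (∀ U ∈ St, ‖P U‖ ≤ Real.exp x → U.re ≤ m) →
    En P x ≠ ⊤ ∧ (En P x).toReal ≤ 2 * Real.pi * (m - x)

/-- [U12] (uses Energy, Crs) PROOF: if `U ∈ St`, `‖P U‖ ≥ e^{x+1}`, then by Crs every `U'` with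
`‖P U'‖ ≤ e^x` has `Re U' ≤ m := Re U + 4π²`, so Energy applies: `En P x ≠ ⊤` and
`(En P x).toReal ≤ 2π (Re U + 4π² - x)`. First claim: such a `U` exists (`Sp.unb`). Second claim:
`x = log ‖P U‖ - 1`. -/
def Star : Prop :=
  ∀ P : ℂ → ℂ, Sp P → (∀ x : ℝ, En P x ≠ ⊤) ∧
    ∀ U ∈ St, Real.log ‖P U‖ + (En P (Real.log ‖P U‖ - 1)).toReal / (2 * Real.pi) ≤
      U.re + (4 * Real.pi ^ 2 + 1)

/-- [U13] (uses Star, Area, Tail) One ring. PROOF: `En P` is monotone and finite, `E x` its real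
value, `c = e^{4π²+1}`, `R` the ring. `(P e^{-V})' = P e^{-U} (q - 1)`, `q = P'/P`. For `U ∈ R`,
`log ‖P U‖ - 1 ≥ y - 1`, so by Star `‖P U‖ e^{-Re U} ≤ c e^{-E(y-1)/2π}` (*).
(a) So the integral is at most `c² e^{-E(y-1)/π} ∫⁻_R ‖q-1‖²`, and
`∫⁻_R ‖q-1‖² = E (y+1) - E y` (difference of the two domains; `lintegral_diff`-type or additivity).
(b) `‖q-1‖² ≤ 2‖q‖² + 2`; by (*) and Area the first part is `≤ c² e^{-E(y-1)/π} · 2 · 2π`; for the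
second `‖P‖² ≤ e^{2y+2}`, and by (*) `e^{Re U} ≥ ‖P U‖ c⁻¹ e^{E(y-1)/2π} ≥ e^r` with
`r = y - (4π²+1) + E(y-1)/2π`, so by Tail.1
`2 ∫⁻_R ‖P‖² e^{-2 Re U} ≤ 2 e^{2y+2} π e^{-2r} = 2π e² c² e^{-E(y-1)/π}`.
So `C = c² (4π + 2π e²)` works for both (it is `≥ c²`). -/
def Ring : Prop :=
  ∃ C : ℝ, 0 < C ∧ ∀ P : ℂ → ℂ, Sp P → ∀ y : ℝ,
    ∫⁻ U in {U : ℂ | U ∈ St ∧ Real.exp y ≤ ‖P U‖ ∧ ‖P U‖ < Real.exp (y + 1)},
      ENNReal.ofReal (‖deriv (fun V : ℂ => P V * exp (-V)) U‖ ^ 2) ≤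
    ENNReal.ofReal (C * (Real.exp (-((En P (y - 1)).toReal / Real.pi)) *
      min 1 ((En P (y + 1)).toReal - (En P y).toReal)))

/-- [U15] (uses Star, Ring, Ser) PROOF: the first bound is Star (`(En ..).toReal ≥ 0`). `St` is
the union over `i : ℤ` of the rings with `y = i` (`‖P U‖ > 0`; `i = ⌊log ‖P U‖⌋`):
`lintegral_iUnion_le`, Ring and Ser with `E i = (En P i).toReal`
(`ofReal (C a) = ofReal C * ofReal a`, `ENNReal.tsum_mul_left`). -/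
def MainS : Prop :=
  ∃ C : ℝ, 0 < C ∧ ∀ P : ℂ → ℂ, Sp P → (∀ U ∈ St, ‖P U‖ ≤ C * Real.exp U.re) ∧
    ∫⁻ U in St, ENNReal.ofReal (‖deriv (fun V : ℂ => P V * exp (-V)) U‖ ^ 2) ≤ ENNReal.ofReal C

/-! ### The disk -/

/-- [U16] The map `hm`. Tools: `Lip/Cay.lean` (`prfCay : Lip.Cay`: `psi`, `phi` are inverse to each
other between the disk and `Hp = {Re > 0}`). PROOF: `1 + 4 kb z = (psi z)²` for `z ≠ 1`. For
`U ∈ St`, `exp U ∈ slitPlane` (`exp U = e^{Re U} (cos, sin)(Im U)`; `Complex.exp_mem_slitPlane` or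
`log (exp U) = U` (`Complex.log_exp`) has imaginary part `≠ π`), so `W = 1 + 4 exp U ∈ slitPlane`
and `s = W^{1/2}` (`cpow`; holomorphic in `U`) has `s² = W` and positive real part
(`arg s = arg W/2`; or `s = exp (log W/2)` with `|Im| < π/2`). `hm U = phi s` is in the disk,
`psi (hm U) = s`, so `kb (hm U) = (s²-1)/4 = exp U ≠ 0`, hence `hm U ≠ 0`. `exp` is injective on
`St` (`log (exp U) = U`), so `hm` is. `kb` is injective on the disk: `(psi z)² = (psi z')²` and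
positive real parts give `psi z = psi z'`. If `z` is in the disk and not in `(-1, 0]`:
`kb z ∈ slitPlane` (otherwise `(psi z)² = 1 + 4 kb z` is real `≤ 1`; as `Re psi z > 0` and
`0 = Im (psi z)² = 2 Re Im`, `p = psi z` is real, `0 < p ≤ 1`, and `z = (p-1)/(p+1)` is real
`≤ 0`); `U = log (kb z) ∈ St`, `kb (hm U) = exp U = kb z`, so `hm U = z`. -/
def HmF : Prop :=
  DifferentiableOn ℂ hm St ∧ InjOn hm St ∧
  (∀ U ∈ St, hm U ∈ ball (0 : ℂ) 1 ∧ hm U ≠ 0 ∧ kb (hm U) = exp U) ∧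
  (∀ z ∈ ball (0 : ℂ) 1, ¬ (z.im = 0 ∧ z.re ≤ 0) → ∃ U ∈ St, hm U = z) ∧
  InjOn kb (ball (0 : ℂ) 1) ∧ DifferentiableOn ℂ kb (ball (0 : ℂ) 1)

/-- [U17] The sublevel sets are connected. PROOF: if `s ≤ 0` the set is empty. Let
`V = {w ∈ f(D) : ‖w‖ < s}`. `V \ {0}` is preconnected: copy the proof of `prfLipConn`
(`Lip/E7.lean`), with the interval `Ioo 0 s` in place of `Ioi R` (the lemmas `LipConnX.slice`,
`LipConnX.isOpen_image`, `LipConnX.isOpen_norm_image` apply directly). `V` is open and contains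
`0 = f 0`, so `0 ∈ closure (V \ {0})` and `V` is preconnected
(`IsPreconnected.subset_closure`). Pull back by `f`: copy `prfLipConnZ` (`Lip/E8.lean`,
`LipConnZX.isOpenMap_restrict`). -/
def ConnIn : Prop :=
  ∀ (f : ℂ → ℂ) (s : ℝ), Sc f → OneOm f →
    IsPreconnected {z : ℂ | z ∈ ball (0 : ℂ) 1 ∧ ‖f z‖ < s}

/-- [U18] (uses HmF) The normalisation. PROOF: `f z/z → f'(0) = 1` and `z/kb z = (1-z)² → 1` as
`z → 0`, so there is `r ∈ (0, 1)` with `|log (‖f z‖/‖kb z‖)| ≤ ε` for `0 < |z| < r`. As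
`f` is an open map (`LipConnX`), `f (ball 0 r)` contains a `ball 0 δ`, so by injectivity
`‖f z‖ < δ`, `z ∈ D`, implies `|z| < r`. Also `‖kb z‖ ≥ |z|/4` on the disk. Take `L` with
`4 e^{-L} < r`, `e^{-L} < δ`. If `Re U ≤ -L`: `|hm U| ≤ 4 ‖kb (hm U)‖ = 4 e^{Re U} < r`; if
`‖f (hm U)‖ ≤ e^{-L}`: `|hm U| < r`. And `‖kb (hm U)‖ = e^{Re U}`. -/
def SpN : Prop :=
  ∀ f : ℂ → ℂ, Sc f → ∀ ε : ℝ, 0 < ε → ∃ L : ℝ, ∀ U ∈ St,
    (U.re ≤ -L ∨ ‖f (hm U)‖ ≤ Real.exp (-L)) → |Real.log ‖f (hm U)‖ - U.re| ≤ ε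

/-- [U19] (uses HmF, ConnIn) Crossing of vertical lines. PROOF: common remark: if `W ⊆ D` is open
and preconnected, `z₁, z₂ ∈ W` with `‖kb z₁‖ < e^u < ‖kb z₂‖`, there is `φ ∈ (-π, π)` with
`hm (u + iφ) ∈ W`. Indeed `‖kb z‖ = e^u` for some `z ∈ W` (`IsPreconnected.intermediate_value`),
`kb z = e^{u+iθ}`, `θ = arg (kb z) ∈ (-π, π]`; `kb '' W` is open (open mapping theorem, `kb` is
injective holomorphic), contains `e^{u+iθ}`, hence `e^{u+iφ}` for `φ < θ` close to `θ`: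
`e^{u+iφ} = kb z'`, `z' ∈ W`, and `kb (hm (u+iφ)) = e^{u+iφ}`, so `hm (u+iφ) = z'` by injectivity
of `kb`. (crl) `W = {z ∈ D : ‖f z‖ < s}` (ConnIn), `z₁ = 0`, `z₂ = hm U`. (crg) if `s < 0` every
`φ` works; else `W = {z ∈ D : s < ‖f z‖}` (`prfLipConn`, `prfLipConnZ`, files `Lip/E7`, `Lip/E8`),
`z₁ = hm U`, and `z₂` a point where `‖f z₂‖` is large (`f` is unbounded: lemma `unb` in
`Lip/E13.lean`): `‖1-z₂‖² ≤ K/‖f z₂‖` is small, so `|z₂| ≥ 1/2`,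
`‖kb z₂‖ = |z₂|/‖1-z₂‖² ≥ ‖f z₂‖/(2K) > e^u`. (unb) the set `{z ∈ D : s < ‖f z‖}` is open and
nonempty, so it contains a point which is not real, hence in the image of `hm`. -/
def SpC : Prop :=
  ∀ (f : ℂ → ℂ) (K : ℝ), Sc f → OneOm f → (∀ z ∈ ball (0 : ℂ) 1, ‖f z‖ * ‖1 - z‖ ^ 2 ≤ K) →
    (∀ s : ℝ, ∃ U ∈ St, s < ‖f (hm U)‖) ∧
    (∀ (U : ℂ) (s u : ℝ), U ∈ St → ‖f (hm U)‖ < s → u < U.re →
      ∃ φ ∈ Ioo (-Real.pi) Real.pi, ‖f (hm ((u : ℂ) + (φ : ℝ) * I))‖ < s) ∧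
    (∀ (U : ℂ) (s u : ℝ), U ∈ St → s < ‖f (hm U)‖ → U.re < u →
      ∃ φ ∈ Ioo (-Real.pi) Real.pi, s < ‖f (hm ((u : ℂ) + (φ : ℝ) * I))‖)

/-- [U20] (uses HmF, SpN, SpC) PROOF: composition; `f z = 0` only for `z = 0`. -/
def SpAll : Prop :=
  ∀ (f : ℂ → ℂ) (K : ℝ), Sc f → OneOm f → (∀ z ∈ ball (0 : ℂ) 1, ‖f z‖ * ‖1 - z‖ ^ 2 ≤ K) →
    Sp (fun U : ℂ => f (hm U))

/-- [U21] (uses MainS, SpAll, Chg, HmF) The main result. PROOF: `P = f ∘ hm`, `A = Aq f`,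
holomorphic on the disk (`Complex.differentiableOn_dslope`), `A z = f z/kb z` for `z ≠ 0`, so
`A (hm U) = P U e^{-U}` on `St` and `(P e^{-V})'(U) = A'(hm U) hm'(U)`. (i) `‖A (hm U)‖ ≤ C` by
MainS, and the image of `hm` contains the non real points of the disk, a dense set; `A` is
continuous. (ii) Chg with `F = hm`, `O = E = St`, `G = ofReal ‖A'‖²`:
`∫⁻_{hm '' St} ofReal ‖A'‖² = ∫⁻_St ofReal ‖(P e^{-V})'‖² ≤ ofReal C`; the disk without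
`hm '' St` is contained in the real line, a null set
(`Complex.volume_preserving_equiv_real_prod` or `MeasureTheory.Measure.addHaar_affineSubspace`;
`setLIntegral_congr` / `lintegral_mono_set` and `ball ⊆ hm '' St ∪ N`). -/
def Dir : Prop :=
  ∃ C : ℝ, 0 < C ∧ ∀ (f : ℂ → ℂ) (K : ℝ), Sc f → OneOm f →
    (∀ z ∈ ball (0 : ℂ) 1, ‖f z‖ * ‖1 - z‖ ^ 2 ≤ K) →
    (∀ z ∈ ball (0 : ℂ) 1, ‖Aq f z‖ ≤ C) ∧
    ∫⁻ z in ball (0 : ℂ) 1, ENNReal.ofReal (‖deriv (Aq f) z‖ ^ 2) ≤ ENNReal.ofReal C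

/-- [U22] The Dirichlet integral and the coefficients (`≤` only). Tool: `prfOrth : Lip.Orth`
(file `Lip/Orth.lean`): `∫_{|ζ|<s} h ζ conj(ζ)^m = π s^{2m+2}/(m+1) tc h m`. PROOF: let `h = A'`,
`tc h m = (m+1) tc A (m+1)` (`iteratedDeriv_succ'`), `0 < s < 1`, `p ζ = ∑_{m<N} c_m ζ^m` with
`c_m = tc h m`. `0 ≤ ∫_{|ζ|<s} ‖h - p‖² = ∫ ‖h‖² - 2 Re ∫ h conj p + ∫ ‖p‖²`, and by Orth for `h`
and for `p` (`tc p m = c_m` for `m < N`; `tc_of_hasSum`, file `Tc.lean`) `∫ h conj p = ∫ p conj p =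
∑_{m<N} ‖c_m‖² π s^{2m+2}/(m+1)`. So `∑_{m<N} ‖c_m‖² π s^{2m+2}/(m+1) ≤ ∫_{|ζ|<s} ‖h‖² ≤ C`;
`s → 1`: `π ∑_{m<N} (m+1) ‖tc A (m+1)‖² ≤ C`. -/
def Pars : Prop :=
  ∀ (A : ℂ → ℂ) (C : ℝ), 0 ≤ C → DifferentiableOn ℂ A (ball 0 1) →
    ∫⁻ z in ball (0 : ℂ) 1, ENNReal.ofReal (‖deriv A z‖ ^ 2) ≤ ENNReal.ofReal C →
    ∀ N : ℕ, ∑ m ∈ Finset.range N, (m : ℝ) * ‖tc A m‖ ^ 2 ≤ C / Real.pi

end Pool.Agent.MultS.UB
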