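import Pool.Agent.Work.MP_b17785_an.UB.Stmts
import Pool.Agent.Work.MP_b17785_an.Bd.B08
import Pool.Agent.Work.MP_b17785_an.Bd.B02

/-!
# [U22] the Dirichlet integral and the coefficients
-/

set_option autoImplicit false

open Complex Metric Set Filter Topology MeasureTheory
open scoped ENNReal

namespace Pool.Agent.MultS.UB

namespace ParsX

lemma tc_deriv (A : ℂ → ℂ) (m : ℕ) : tc (deriv A) m = ((m : ℂ) + 1) * tc A (m + 1) := by
  unfold tc
  rw [iteratedDeriv_succ', Nat.factorial_succ]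
  have h1 : ((m : ℂ) + 1) ≠ 0 := by exact_mod_cast m.succ_ne_zero
  have h2 : (m.factorial : ℂ) ≠ 0 := by exact_mod_cast m.factorial_ne_zero
  push_cast
  field_simp

/-- the partial sum -/
noncomputable def p (c : ℕ → ℂ) (N : ℕ) (ζ : ℂ) : ℂ := ∑ m ∈ Finset.range N, c m * ζ ^ m

lemma tc_p (c : ℕ → ℂ) (N m : ℕ) (hm : m < N) : tc (p c N) m = c m := by
  have key : ∀ z ∈ ball (0 : ℂ) 1,
      HasSum (fun n => (if n < N then c n else 0) * z ^ n) (p c N z) := by
    intro z _
    have h : HasSum (fun n => (if n < N then c n else 0) * z ^ n)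
        (∑ n ∈ Finset.range N, (if n < N then c n else 0) * z ^ n) :=
      hasSum_sum_of_ne_finset_zero (by
        intro b hb
        rw [Finset.mem_range] at hb
        simp [hb])
    convert! h using 1
    unfold p
    apply Finset.sum_congr rfl
    intro i hi
    rw [Finset.mem_range] at hi
    simp [hi]
  rw [tc_of_hasSum key m, if_pos hm]

lemma diff_p (c : ℕ → ℂ) (N : ℕ) : Differentiable ℂ (p c N) := by
  unfold p
  fun_prop

/-- the energy of the partial sum -/
noncomputable def E (c : ℕ → ℂ) (N : ℕ) (s : ℝ) : ℝ :=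
  ∑ m ∈ Finset.range N, ‖c m‖ ^ 2 * (Real.pi * s ^ (2 * m + 2) / (m + 1))

lemma int_on {F : ℂ → ℂ} {s : ℝ} (hF : ContinuousOn F (closedBall 0 s)) :
    IntegrableOn F (ball (0 : ℂ) s) :=
  (hF.integrableOn_compact (isCompact_closedBall 0 s)).mono_set ball_subset_closedBall

lemma int_onR {F : ℂ → ℝ} {s : ℝ} (hF : ContinuousOn F (closedBall 0 s)) :
    IntegrableOn F (ball (0 : ℂ) s) :=
  (hF.integrableOn_compact (isCompact_closedBall 0 s)).mono_set ball_subset_closedBall

lemma conj_int (hO : Lip.Orth) (h : ℂ → ℂ) (hh : DifferentiableOn ℂ h (ball 0 1)) (s : ℝ)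
    (hs0 : 0 < s) (hs1 : s < 1) (c : ℕ → ℂ) (N : ℕ) (hc : ∀ m < N, tc h m = c m) :
    ∫ ζ in ball (0 : ℂ) s, h ζ * (starRingEnd ℂ) (p c N ζ) = (E c N s : ℂ) := by
  have hcont : ContinuousOn h (closedBall 0 s) :=
    hh.continuousOn.mono (closedBall_subset_ball hs1)
  have e1 : ∀ ζ, h ζ * (starRingEnd ℂ) (p c N ζ)
      = ∑ m ∈ Finset.range N, (starRingEnd ℂ) (c m) * (h ζ * (starRingEnd ℂ) ζ ^ m) := by
    intro ζ
    unfold p
    rw [map_sum, Finset.mul_sum]
    apply Finset.sum_congr rfl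
    intro m _
    rw [map_mul, map_pow]
    ring
  simp_rw [e1]
  rw [integral_finsetSum]
  · unfold E
    push_cast
    apply Finset.sum_congr rfl
    intro m hm
    rw [Finset.mem_range] at hm
    rw [integral_const_mul, hO h hh s hs0 hs1 m, hc m hm]
    have : (starRingEnd ℂ) (c m) * c m = (‖c m‖ : ℂ) ^ 2 := by
      rw [mul_comm, Complex.mul_conj, Complex.normSq_eq_norm_sq]
      push_cast
      rfl
    rw [← this]
    ring
  · intro m _
    apply Integrable.const_mul
    apply int_on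
    apply hcont.mul
    fun_prop

lemma bessel (hO : Lip.Orth) (h : ℂ → ℂ) (hh : DifferentiableOn ℂ h (ball 0 1)) (s : ℝ)
    (hs0 : 0 < s) (hs1 : s < 1) (N : ℕ) :
    E (fun m => tc h m) N s ≤ ∫ ζ in ball (0 : ℂ) s, ‖h ζ‖ ^ 2 := by
  set c : ℕ → ℂ := fun m => tc h m with hc
  have hcont : ContinuousOn h (closedBall 0 s) :=
    hh.continuousOn.mono (closedBall_subset_ball hs1)
  have hpc : Continuous (p c N) := (diff_p c N).continuous
  have h1 := conj_int hO h hh s hs0 hs1 c N (fun m _ => rfl)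
  have h2 := conj_int hO (p c N) (diff_p c N).differentiableOn s hs0 hs1 c N
    (fun m hm => tc_p c N m hm)
  have r1 : ∫ ζ in ball (0 : ℂ) s, (h ζ * (starRingEnd ℂ) (p c N ζ)).re = E c N s := by
    have := congrArg Complex.re h1
    rw [Complex.ofReal_re] at this
    rw [← this]
    have hi : IntegrableOn (fun ζ => h ζ * (starRingEnd ℂ) (p c N ζ)) (ball (0 : ℂ) s) := by
      apply int_on
      apply hcont.mul
      exact (Complex.continuous_conj.comp hpc).continuousOn
    exact integral_re hi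
  have r2 : ∫ ζ in ball (0 : ℂ) s, ‖p c N ζ‖ ^ 2 = E c N s := by
    have := congrArg Complex.re h2
    rw [Complex.ofReal_re] at this
    rw [← this]
    have hi : IntegrableOn (fun ζ => p c N ζ * (starRingEnd ℂ) (p c N ζ)) (ball (0 : ℂ) s) := by
      apply int_on
      exact (hpc.mul (Complex.continuous_conj.comp hpc)).continuousOn
    have h3 := integral_re hi
    refine Eq.trans ?_ h3
    apply integral_congr_ae
    filter_upwards with ζ
    rw [Complex.mul_conj, Complex.normSq_eq_norm_sq]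
    exact (Complex.ofReal_re _).symm
  have hnn : 0 ≤ ∫ ζ in ball (0 : ℂ) s, ‖h ζ - p c N ζ‖ ^ 2 :=
    integral_nonneg fun _ => sq_nonneg _
  have hsq : ∀ ζ, ‖h ζ - p c N ζ‖ ^ 2
      = ‖h ζ‖ ^ 2 - 2 * (h ζ * (starRingEnd ℂ) (p c N ζ)).re + ‖p c N ζ‖ ^ 2 := by
    intro ζ
    rw [← Complex.normSq_eq_norm_sq, ← Complex.normSq_eq_norm_sq, ← Complex.normSq_eq_norm_sq,
      Complex.normSq_sub]
    ring
  simp_rw [hsq] at hnn
  have i1 : IntegrableOn (fun ζ => ‖h ζ‖ ^ 2) (ball (0 : ℂ) s) := int_onR (hcont.norm.pow 2)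
  have i2 : IntegrableOn (fun ζ => 2 * (h ζ * (starRingEnd ℂ) (p c N ζ)).re) (ball (0 : ℂ) s) := by
    apply int_onR
    apply ContinuousOn.mul continuousOn_const
    exact Complex.continuous_re.comp_continuousOn
      (hcont.mul (Complex.continuous_conj.comp hpc).continuousOn)
  have i3 : IntegrableOn (fun ζ => ‖p c N ζ‖ ^ 2) (ball (0 : ℂ) s) :=
    int_onR (hpc.norm.pow 2).continuousOn
  have q1 : ∫ ζ in ball (0 : ℂ) s, (‖h ζ‖ ^ 2 - 2 * (h ζ * (starRingEnd ℂ) (p c N ζ)).re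
      + ‖p c N ζ‖ ^ 2) = (∫ ζ in ball (0 : ℂ) s, (‖h ζ‖ ^ 2
      - 2 * (h ζ * (starRingEnd ℂ) (p c N ζ)).re)) + ∫ ζ in ball (0 : ℂ) s, ‖p c N ζ‖ ^ 2 :=
    integral_add (i1.sub i2) i3
  have q2 : ∫ ζ in ball (0 : ℂ) s, (‖h ζ‖ ^ 2 - 2 * (h ζ * (starRingEnd ℂ) (p c N ζ)).re)
      = (∫ ζ in ball (0 : ℂ) s, ‖h ζ‖ ^ 2)
        - ∫ ζ in ball (0 : ℂ) s, 2 * (h ζ * (starRingEnd ℂ) (p c N ζ)).re :=
    integral_sub i1 i2
  rw [q1, q2, integral_const_mul, r1, r2] at hnn
  linarith

end ParsX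

open ParsX in
theorem prfPars (hO : Lip.Orth) : Pars := by
  intro A C hC hA hint N
  have hpi := Real.pi_pos
  have hh : DifferentiableOn ℂ (deriv A) (ball 0 1) := hA.deriv isOpen_ball
  -- bound for `s < 1`
  have hs : ∀ s : ℝ, 0 < s → s < 1 → ∀ M : ℕ, E (fun m => tc (deriv A) m) M s ≤ C := by
    intro s hs0 hs1 M
    refine (bessel hO (deriv A) hh s hs0 hs1 M).trans ?_
    have hcont : ContinuousOn (deriv A) (closedBall 0 s) :=
      hh.continuousOn.mono (closedBall_subset_ball hs1)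
    have i1 : IntegrableOn (fun ζ => ‖deriv A ζ‖ ^ 2) (ball (0 : ℂ) s) :=
      int_onR (hcont.norm.pow 2)
    rw [← ENNReal.ofReal_le_ofReal_iff hC, ofReal_integral_eq_lintegral_ofReal i1
      (Eventually.of_forall fun _ => sq_nonneg _)]
    exact (lintegral_mono_set (ball_subset_ball hs1.le)).trans hint
  -- the limit
  have hlim : ∀ M : ℕ, E (fun m => tc (deriv A) m) M 1 ≤ C := by
    intro M
    have hc : Continuous (fun s => E (fun m => tc (deriv A) m) M s) := by
      unfold E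
      fun_prop
    have ht : Tendsto (fun s => E (fun m => tc (deriv A) m) M s) (𝓝[<] 1)
        (𝓝 (E (fun m => tc (deriv A) m) M 1)) := (hc.tendsto 1).mono_left nhdsWithin_le_nhds
    apply le_of_tendsto ht
    have : Ioo (0 : ℝ) 1 ∈ 𝓝[<] (1 : ℝ) := Ioo_mem_nhdsLT one_pos
    filter_upwards [this] with s hs'
    exact hs s hs'.1 hs'.2 M
  rw [le_div_iff₀ hpi]
  rcases Nat.eq_zero_or_pos N with h0 | h0
  · subst h0; simpa using hC
  · obtain ⟨M, rfl⟩ : ∃ M, N = M + 1 := ⟨N - 1, by omega⟩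
    rw [Finset.sum_range_succ']
    simp only [Nat.cast_zero, zero_mul, add_zero]
    refine le_trans (le_of_eq ?_) (hlim M)
    unfold E
    rw [Finset.sum_mul]
    apply Finset.sum_congr rfl
    intro m _
    change _ = ‖tc (deriv A) m‖ ^ 2 * _
    rw [tc_deriv, norm_mul, one_pow, mul_one]
    have : ‖(m : ℂ) + 1‖ = (m : ℝ) + 1 := by
      rw [show (m : ℂ) + 1 = ((m + 1 : ℕ) : ℂ) by push_cast; ring, Complex.norm_natCast]
      push_cast; ring
    rw [this]
    have h3 : (m : ℝ) + 1 ≠ 0 := by positivity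
    push_cast
    field_simp

end Pool.Agent.MultS.UB
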