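import Pool.Agent.Work.MP_b17785_an.Bd.B15
import Pool.Agent.Work.MP_b17785_an.Bd.B11

/-!
# [V2] Reduction to polynomials
-/

set_option autoImplicit false

open Complex Metric Set Filter Topology MeasureTheory
open scoped ENNReal

namespace Pool.Agent.MultS.UB

/-- The coefficients of an admissible function. -/
theorem adm_coef {A : ℂ → ℂ} (hA : Adm A) (m : ℕ) : ‖tc A m‖ ≤ 1 := by
  have h := Lip.prfParsQ (tc A) 1 (fun z hz => ⟨(hasSum_tc hA.1 hz).summable, by
    rw [(hasSum_tc hA.1 hz).tsum_eq]; exact hA.2.1 z hz⟩) (m + 1)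
  have h1 : ‖tc A m‖ ^ 2 ≤ ∑ n ∈ Finset.range (m + 1), ‖tc A n‖ ^ 2 :=
    Finset.single_le_sum (f := fun n => ‖tc A n‖ ^ 2) (fun n _ => by positivity)
      (Finset.mem_range.2 (Nat.lt_succ_self m))
  nlinarith [norm_nonneg (tc A m)]

namespace ApprX

/-- the radius -/
noncomputable def rh (k : ℕ) : ℝ := 1 - 1 / ((k : ℝ) + 2)

lemma rh_pos (k : ℕ) : 0 < rh k := by
  unfold rh
  have : (0 : ℝ) ≤ k := k.cast_nonneg
  rw [sub_pos, div_lt_one (by linarith)]
  linarith

lemma rh_lt (k : ℕ) : rh k < 1 := by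
  unfold rh
  have : (0 : ℝ) ≤ k := k.cast_nonneg
  have : 0 < 1 / ((k : ℝ) + 2) := by positivity
  linarith

lemma rh_tendsto : Tendsto rh atTop (𝓝 1) := by
  have h1 : Tendsto (fun k : ℕ => (k : ℝ) + 2) atTop atTop :=
    tendsto_atTop_add_const_right _ _ tendsto_natCast_atTop_atTop
  have h2 := (tendsto_inv_atTop_zero.comp h1).const_sub 1
  rw [sub_zero] at h2
  refine h2.congr fun k => ?_
  simp [rh, one_div]

lemma tail {A : ℂ → ℂ} (hA : Adm A) (k : ℕ) :
    ∃ N : ℕ, k ≤ N ∧ ∑' m : ℕ, ‖tc A (m + N)‖ * rh k ^ (m + N) ≤ 1 / ((k : ℝ) + 1) := by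
  have hr : ((rh k : ℝ) : ℂ) ∈ ball (0 : ℂ) 1 := by
    rw [mem_ball_zero_iff, norm_real, Real.norm_of_nonneg (rh_pos k).le]
    exact rh_lt k
  have h1 : Summable (fun m : ℕ => ‖tc A m‖ * rh k ^ m) := by
    refine (hasSum_tc hA.1 hr).summable.norm.congr fun m => ?_
    rw [norm_mul, norm_pow, norm_real, Real.norm_of_nonneg (rh_pos k).le]
  have h2 := tendsto_sum_nat_add (fun m : ℕ => ‖tc A m‖ * rh k ^ m)
  have h3 : ∀ᶠ N in atTop, ∑' m : ℕ, ‖tc A (m + N)‖ * rh k ^ (m + N) ≤ 1 / ((k : ℝ) + 1) :=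
    (h2.eventually (gt_mem_nhds (show (0 : ℝ) < 1 / ((k : ℝ) + 1) by positivity))).mono
      fun N h => h.le
  obtain ⟨N, h4, h5⟩ := (h3.and (eventually_ge_atTop k)).exists
  exact ⟨N, h5, h4⟩

end ApprX

open ApprX in
theorem prfAppr : Appr := by
  intro lam hlam x hx B hB A hA
  choose N hN1 hN2 using tail hA
  set δ : ℕ → ℝ := fun k => 1 / ((k : ℝ) + 1) with hδ
  have hδ0 : ∀ k, 0 < δ k := fun k => by rw [hδ]; positivity
  set b : ℕ → ℕ → ℂ := fun k m =>
    if m < N k then tc A m * ((rh k : ℝ) : ℂ) ^ m / ((1 + δ k : ℝ) : ℂ) else 0 with hb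
  have hbm : ∀ k m, ‖b k m‖ ≤ ‖tc A m‖ := by
    intro k m
    simp only [hb]
    split_ifs
    · rw [norm_div, norm_mul, norm_pow, norm_real, norm_real, Real.norm_of_nonneg (rh_pos k).le,
        Real.norm_of_nonneg (by linarith [hδ0 k]), div_le_iff₀ (by linarith [hδ0 k])]
      have h1 : rh k ^ m ≤ 1 := pow_le_one₀ (rh_pos k).le (rh_lt k).le
      have h2 : 1 ≤ 1 + δ k := by linarith [hδ0 k]
      calc ‖tc A m‖ * rh k ^ m ≤ ‖tc A m‖ * 1 := mul_le_mul_of_nonneg_left h1 (norm_nonneg _)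
        _ ≤ ‖tc A m‖ * (1 + δ k) := mul_le_mul_of_nonneg_left h2 (norm_nonneg _)
    · rw [norm_zero]
      exact norm_nonneg _
  have hb1 : ∀ k m, ‖b k m‖ ≤ 1 := fun k m => (hbm k m).trans (adm_coef hA m)
  -- admissible
  have hadm : ∀ k, ‖KK lam (b k) x‖ ≤ B := by
    intro k
    refine hB (b k) (N k) (fun m hm => by simp only [hb]; rw [if_neg (not_lt.2 hm)]) ?_ ?_
    · intro z hz
      have hz1 : ‖z‖ < 1 := mem_ball_zero_iff.1 hz
      have hrz : ((rh k : ℝ) : ℂ) * z ∈ ball (0 : ℂ) 1 := by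
        rw [mem_ball_zero_iff, norm_mul, norm_real, Real.norm_of_nonneg (rh_pos k).le]
        have := rh_lt k
        have := rh_pos k
        nlinarith [norm_nonneg z]
      have hs := hasSum_tc hA.1 hrz
      have e1 := hs.summable.sum_add_tsum_nat_add (N k)
      rw [hs.tsum_eq] at e1
      have hn : (fun m : ℕ => ‖tc A (m + N k) * (((rh k : ℝ) : ℂ) * z) ^ (m + N k)‖) =
          fun m : ℕ => ‖tc A (m + N k)‖ * (rh k * ‖z‖) ^ (m + N k) := by
        funext m
        rw [norm_mul, norm_pow, norm_mul, norm_real, Real.norm_of_nonneg (rh_pos k).le]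
      have hsn : Summable (fun m : ℕ => ‖tc A (m + N k) * (((rh k : ℝ) : ℂ) * z) ^ (m + N k)‖) :=
        (summable_nat_add_iff (f := fun m => ‖tc A m * (((rh k : ℝ) : ℂ) * z) ^ m‖) (N k)).2
          hs.summable.norm
      have hr : ((rh k : ℝ) : ℂ) ∈ ball (0 : ℂ) 1 := by
        rw [mem_ball_zero_iff, norm_real, Real.norm_of_nonneg (rh_pos k).le]
        exact rh_lt k
      have hsr : Summable (fun m : ℕ => ‖tc A (m + N k)‖ * rh k ^ (m + N k)) := by
        refine (summable_nat_add_iff (f := fun m => ‖tc A m‖ * rh k ^ m) (N k)).2 ?_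
        refine (hasSum_tc hA.1 hr).summable.norm.congr fun m => ?_
        rw [norm_mul, norm_pow, norm_real, Real.norm_of_nonneg (rh_pos k).le]
      have ht : ‖∑' m : ℕ, tc A (m + N k) * (((rh k : ℝ) : ℂ) * z) ^ (m + N k)‖ ≤ δ k := by
        refine (norm_tsum_le_tsum_norm hsn).trans (le_trans ?_ (hN2 k))
        refine Summable.tsum_le_tsum (fun m => ?_) hsn hsr
        rw [norm_mul, norm_pow, norm_mul, norm_real, Real.norm_of_nonneg (rh_pos k).le]
        refine mul_le_mul_of_nonneg_left (pow_le_pow_left₀ ?_ ?_ _) (norm_nonneg _)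
        · exact mul_nonneg (rh_pos k).le (norm_nonneg _)
        · exact mul_le_of_le_one_right (rh_pos k).le hz1.le
      have e2 : ∑ m ∈ Finset.range (N k), b k m * z ^ m =
          (∑ m ∈ Finset.range (N k), tc A m * (((rh k : ℝ) : ℂ) * z) ^ m) /
            ((1 + δ k : ℝ) : ℂ) := by
        rw [Finset.sum_div]
        refine Finset.sum_congr rfl fun m hm => ?_
        simp only [hb]
        rw [if_pos (Finset.mem_range.1 hm), mul_pow]
        ring
      have e3 : ∑ m ∈ Finset.range (N k), tc A m * (((rh k : ℝ) : ℂ) * z) ^ m =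
          A (((rh k : ℝ) : ℂ) * z) -
            ∑' m : ℕ, tc A (m + N k) * (((rh k : ℝ) : ℂ) * z) ^ (m + N k) := by
        rw [← e1]; ring
      rw [e2, e3, norm_div, norm_real, Real.norm_of_nonneg (by linarith [hδ0 k]),
        div_le_one (by linarith [hδ0 k])]
      exact (norm_sub_le _ _).trans (add_le_add (hA.2.1 _ hrz) ht)
    · refine le_trans (Finset.sum_le_sum fun m _ => ?_) (hA.2.2 (N k))
      exact mul_le_mul_of_nonneg_left (pow_le_pow_left₀ (norm_nonneg _) (hbm k m) 2)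
        m.cast_nonneg
  -- the limit
  have hlim : ∀ m, Tendsto (fun k => b k m) atTop (𝓝 (tc A m)) := by
    intro m
    have h1 : Tendsto (fun k => tc A m * ((rh k : ℝ) : ℂ) ^ m / ((1 + δ k : ℝ) : ℂ)) atTop
        (𝓝 (tc A m * ((1 : ℝ) : ℂ) ^ m / ((1 + 0 : ℝ) : ℂ))) := by
      have h2 : Tendsto (fun k => ((rh k : ℝ) : ℂ)) atTop (𝓝 ((1 : ℝ) : ℂ)) :=
        (continuous_ofReal.tendsto 1).comp rh_tendsto
      have h3 : Tendsto (fun k => ((1 + δ k : ℝ) : ℂ)) atTop (𝓝 ((1 + 0 : ℝ) : ℂ)) :=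
        (continuous_ofReal.tendsto _).comp (tendsto_one_div_add_atTop_nhds_zero_nat.const_add 1)
      exact ((h2.pow m).const_mul _).div h3 (by norm_num)
    have h4 : tc A m * ((1 : ℝ) : ℂ) ^ m / ((1 + 0 : ℝ) : ℂ) = tc A m := by simp
    rw [h4] at h1
    refine h1.congr' ?_
    filter_upwards [eventually_gt_atTop m] with k hk
    simp only [hb]
    rw [if_pos (hk.trans_le (hN1 k))]
  have hT : Tendsto (fun k => KK lam (b k) x) atTop (𝓝 (KK lam (tc A) x)) := by
    unfold KK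
    refine tendsto_tsum_of_dominated_convergence
      (bound := fun n : ℕ => 1 * (((n : ℝ) + 1) ^ 3 * ‖lam (n + 1)‖ * ‖x‖ ^ n))
      ((sm_pow hlam hx 3).mul_left 1) (fun n => ?_) ?_
    · refine Tendsto.mul_const _ (Tendsto.const_mul _ ?_)
      exact tendsto_finsetSum _ fun m _ => (hlim m).const_mul _
    · exact Eventually.of_forall fun k n => kk_term (hb1 k) x n
  exact le_of_tendsto hT.norm (Eventually.of_forall hadm)

end Pool.Agent.MultS.UB
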