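import Pool.Agent.Work.MP_b17785_an.UB.Stmts

/-!
# [U11] The energy estimate
-/

set_option autoImplicit false

open Complex Metric Set Filter Topology MeasureTheory
open scoped ENNReal

namespace Pool.Agent.MultS.UB

namespace EnergyX

lemma isOpen_St : IsOpen St :=
  (isOpen_lt continuous_const continuous_im).inter (isOpen_lt continuous_im continuous_const)

/-- The domain. -/
def Om (P : ℂ → ℂ) (x L : ℝ) : Set ℂ := {U : ℂ | U ∈ St ∧ -L < U.re ∧ ‖P U‖ < Real.exp x}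

lemma isOpen_Om {P : ℂ → ℂ} (hP : Sp P) (x L : ℝ) : IsOpen (Om P x L) := by
  have h1 : IsOpen (St ∩ P ⁻¹' {w : ℂ | ‖w‖ < Real.exp x}) :=
    hP.hol.continuousOn.isOpen_inter_preimage isOpen_St
      (isOpen_lt continuous_norm continuous_const)
  have h2 : IsOpen {U : ℂ | -L < U.re} := isOpen_lt continuous_const continuous_re
  have : Om P x L = (St ∩ P ⁻¹' {w : ℂ | ‖w‖ < Real.exp x}) ∩ {U : ℂ | -L < U.re} := by
    ext U
    constructor
    · rintro ⟨a, b, c⟩
      exact ⟨⟨a, c⟩, b⟩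
    · rintro ⟨⟨a, c⟩, b⟩
      exact ⟨a, b, c⟩
  rw [this]
  exact h1.inter h2

lemma line_mem {φ : ℝ} (hφ : φ ∈ Ioo (-Real.pi) Real.pi) (u : ℝ) :
    ((u : ℂ) + (φ : ℂ) * I) ∈ St := by
  have : ((u : ℂ) + (φ : ℂ) * I).im = φ := by simp
  exact ⟨by rw [this]; exact hφ.1, by rw [this]; exact hφ.2⟩

lemma re_line (u φ : ℝ) : ((u : ℂ) + (φ : ℂ) * I).re = u := by simp

lemma contQ {P : ℂ → ℂ} (hP : Sp P) : ContinuousOn (fun U => deriv P U / P U) St :=
  (hP.hol.deriv isOpen_St).continuousOn.div hP.hol.continuousOn hP.ne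

lemma sq_sub_one (q : ℂ) : ‖q - 1‖ ^ 2 = ‖q‖ ^ 2 + 1 - 2 * q.re := by
  rw [← normSq_eq_norm_sq, ← normSq_eq_norm_sq, normSq_sub]
  simp

/-- The estimate on the truncated domain. -/
theorem est (h1 : CrT) (h2 : Area) (h3 : Tail) {P : ℂ → ℂ} (hP : Sp P) {x m : ℝ}
    (hm : ∀ U ∈ St, ‖P U‖ ≤ Real.exp x → U.re ≤ m) {ε : ℝ} (hε : 0 < ε) :
    ∃ L₁ : ℝ, ∀ L : ℝ, L₁ ≤ L → 0 ≤ 2 * Real.pi * (m - x) + 6 * Real.pi * ε ∧
      ∫⁻ U in Om P x L, ENNReal.ofReal (‖deriv P U / P U - 1‖ ^ 2) ≤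
        ENNReal.ofReal (2 * Real.pi * (m - x) + 6 * Real.pi * ε) := by
  obtain ⟨L₀, hL₀⟩ := hP.nrm ε hε
  have hpi := Real.pi_pos
  refine ⟨max L₀ (ε - x + 1), fun L hL => ?_⟩
  have hL1 : L₀ ≤ L := (le_max_left _ _).trans hL
  have hL2 : ε - x + 1 ≤ L := (le_max_right _ _).trans hL
  -- the left side
  have hleft : ∀ φ ∈ Ioo (-Real.pi) Real.pi,
      |Real.log ‖P (((-L : ℝ) : ℂ) + (φ : ℂ) * I)‖ + L| ≤ ε := by
    intro φ hφ
    have := hL₀ _ (line_mem hφ (-L)) (Or.inl (by rw [re_line]; linarith))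
    rw [re_line, sub_neg_eq_add] at this
    exact this
  have hlt : ∀ φ ∈ Ioo (-Real.pi) Real.pi,
      ‖P (((-L : ℝ) : ℂ) + (φ : ℂ) * I)‖ < Real.exp x := by
    intro φ hφ
    have h5 := (abs_le.1 (hleft φ hφ)).2
    have h6 : 0 < ‖P (((-L : ℝ) : ℂ) + (φ : ℂ) * I)‖ := norm_pos_iff.2 (hP.ne _ (line_mem hφ (-L)))
    rw [← Real.log_lt_iff_lt_exp h6]
    linarith
  have h0 : (0 : ℝ) ∈ Ioo (-Real.pi) Real.pi := ⟨by linarith, hpi⟩
  have hmL : -L ≤ m := by
    have := hm _ (line_mem h0 (-L)) (hlt 0 h0).le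
    rwa [re_line] at this
  -- the domain
  have hOo := isOpen_Om hP x L
  have hOm : MeasurableSet (Om P x L) := hOo.measurableSet
  have hsub : Om P x L ⊆ St := fun U hU => hU.1
  have hsub1 : Om P x L ⊆
      {U : ℂ | U ∈ St ∧ Real.exp (-L - ε) ≤ ‖P U‖ ∧ ‖P U‖ < Real.exp x} := by
    rintro U ⟨hU, hU1, hU2⟩
    refine ⟨hU, ?_, hU2⟩
    by_contra hc
    push Not at hc
    have h5 : ‖P U‖ ≤ Real.exp (-L₀) := hc.le.trans (Real.exp_le_exp.2 (by linarith))
    have h6 := (abs_le.1 (hL₀ U hU (Or.inr h5))).1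
    have h7 : 0 < ‖P U‖ := norm_pos_iff.2 (hP.ne U hU)
    have h8 := (Real.log_lt_iff_lt_exp h7).2 hc
    linarith
  have hsub2 : Om P x L ⊆ {U : ℂ | U ∈ St ∧ -L < U.re ∧ U.re ≤ m} :=
    fun U hU => ⟨hU.1, hU.2.1, hm U hU.1 hU.2.2.le⟩
  have hA : ∫⁻ U in Om P x L, ENNReal.ofReal (‖deriv P U / P U‖ ^ 2) ≤
      ENNReal.ofReal (2 * Real.pi * (x - (-L - ε))) :=
    (lintegral_mono_set hsub1).trans (h2 P hP _ _ (by linarith))
  have hV : volume (Om P x L) ≤ ENNReal.ofReal (2 * Real.pi * (m - -L)) :=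
    (measure_mono hsub2).trans (h3.2 _ _ hmL)
  have hVt : volume (Om P x L) ≠ ⊤ := ne_top_of_le_ne_top ENNReal.ofReal_ne_top hV
  -- integrability
  have hq := (contQ hP).mono hsub
  have hq2 : IntegrableOn (fun U => ‖deriv P U / P U‖ ^ 2) (Om P x L) := by
    refine ⟨(hq.norm.pow 2).aestronglyMeasurable hOm, ?_⟩
    rw [hasFiniteIntegral_iff_ofReal (Eventually.of_forall fun U => by positivity)]
    exact lt_of_le_of_lt hA ENNReal.ofReal_lt_top
  have h11 : IntegrableOn (fun _ : ℂ => (1 : ℝ)) (Om P x L) :=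
    integrableOn_const hVt
  have hre : IntegrableOn (fun U => (deriv P U / P U).re) (Om P x L) := by
    refine Integrable.mono' (hq2.add h11)
      ((continuous_re.comp_continuousOn hq).aestronglyMeasurable hOm) ?_
    refine Eventually.of_forall fun U => ?_
    have h5 : |(deriv P U / P U).re| ≤ ‖deriv P U / P U‖ := abs_re_le_norm _
    simp only [Pi.add_apply, Real.norm_eq_abs]
    nlinarith [sq_nonneg (‖deriv P U / P U‖ - 1), norm_nonneg (deriv P U / P U)]
  -- the three integrals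
  have e1 : ∫ U in Om P x L, ‖deriv P U / P U‖ ^ 2 ≤ 2 * Real.pi * (x - (-L - ε)) := by
    rw [integral_eq_lintegral_of_nonneg_ae (Eventually.of_forall fun U => by positivity) hq2.1]
    exact ENNReal.toReal_le_of_le_ofReal (mul_nonneg (by positivity) (by linarith)) hA
  have e2 : ∫ _U in Om P x L, (1 : ℝ) ≤ 2 * Real.pi * (m - -L) := by
    rw [setIntegral_const, smul_eq_mul, mul_one]
    exact ENNReal.toReal_le_of_le_ofReal (mul_nonneg (by positivity) (by linarith)) hV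
  have e3 : 2 * Real.pi * (x + L - ε) ≤ ∫ U in Om P x L, (deriv P U / P U).re := by
    have h5 := h1 P hP x m L hm hlt hre
    have h5' : ∫ U in Om P x L, (deriv P U / P U).re =
      ∫ φ in Ioo (-Real.pi) Real.pi, (x - Real.log ‖P (((-L : ℝ) : ℂ) + (φ : ℂ) * I)‖) := h5
    rw [h5']
    have hline : Continuous (fun φ : ℝ => (((-L : ℝ) : ℂ) + (φ : ℂ) * I)) := by fun_prop
    have hc : ContinuousOn (fun φ : ℝ => x - Real.log ‖P (((-L : ℝ) : ℂ) + (φ : ℂ) * I)‖)
        (Ioo (-Real.pi) Real.pi) := by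
      refine continuousOn_const.sub (ContinuousOn.log ?_ ?_)
      · exact (hP.hol.continuousOn.comp hline.continuousOn fun φ hφ => line_mem hφ (-L)).norm
      · intro φ hφ
        exact norm_ne_zero_iff.2 (hP.ne _ (line_mem hφ (-L)))
    have hi : IntegrableOn (fun φ : ℝ => x - Real.log ‖P (((-L : ℝ) : ℂ) + (φ : ℂ) * I)‖)
        (Ioo (-Real.pi) Real.pi) := by
      refine Integrable.mono' (g := fun _ => |x + L| + ε) (integrableOn_const (by simp))
        (hc.aestronglyMeasurable measurableSet_Ioo) ?_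
      refine (ae_restrict_iff' measurableSet_Ioo).2 (Eventually.of_forall fun φ hφ => ?_)
      have h6 := hleft φ hφ
      rw [Real.norm_eq_abs]
      have h7 : x - Real.log ‖P (((-L : ℝ) : ℂ) + (φ : ℂ) * I)‖ =
        (x + L) - (Real.log ‖P (((-L : ℝ) : ℂ) + (φ : ℂ) * I)‖ + L) := by ring
      rw [h7]
      exact (abs_sub _ _).trans (by linarith)
    have h8 : ∫ _φ in Ioo (-Real.pi) Real.pi, (x + L - ε) ≤
        ∫ φ in Ioo (-Real.pi) Real.pi, (x - Real.log ‖P (((-L : ℝ) : ℂ) + (φ : ℂ) * I)‖) := by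
      refine setIntegral_mono_on (integrableOn_const (by simp)) hi measurableSet_Ioo
        fun φ hφ => ?_
      have h6 := (abs_le.1 (hleft φ hφ)).2
      linarith
    refine le_trans (le_of_eq ?_) h8
    rw [setIntegral_const, smul_eq_mul]
    simp only [Measure.real, Real.volume_Ioo]
    rw [ENNReal.toReal_ofReal (by linarith)]
    ring
  have hi4 : IntegrableOn (fun U => ‖deriv P U / P U - 1‖ ^ 2) (Om P x L) := by
    have : (fun U => ‖deriv P U / P U - 1‖ ^ 2) =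
        fun U => ‖deriv P U / P U‖ ^ 2 + 1 - 2 * (deriv P U / P U).re := by
      funext U
      exact sq_sub_one _
    rw [this]
    exact (hq2.add h11).sub (hre.const_mul 2)
  have e4 : ∫ U in Om P x L, ‖deriv P U / P U - 1‖ ^ 2 ≤
      2 * Real.pi * (m - x) + 6 * Real.pi * ε := by
    have h5 : ∫ U in Om P x L, ‖deriv P U / P U - 1‖ ^ 2 =
        ∫ U in Om P x L, ((‖deriv P U / P U‖ ^ 2 + 1) - 2 * (deriv P U / P U).re) :=
      integral_congr_ae (Eventually.of_forall fun U => sq_sub_one _)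
    have h6 : IntegrableOn (fun U => ‖deriv P U / P U‖ ^ 2 + 1) (Om P x L) := hq2.add h11
    rw [h5, integral_sub h6 (hre.const_mul 2), integral_add hq2 h11,
      integral_const_mul]
    linarith
  constructor
  · exact le_trans (integral_nonneg fun U => by positivity) e4
  · rw [← ofReal_integral_eq_lintegral_ofReal hi4 (Eventually.of_forall fun U => by positivity)]
    exact ENNReal.ofReal_le_ofReal e4

end EnergyX

open EnergyX in
theorem prfEnergy (h1 : CrT) (h2 : Area) (h3 : Tail) : Energy := by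
  intro P hP x m hm
  have hpi := Real.pi_pos
  have key : ∀ ε : ℝ, 0 < ε → 0 ≤ 2 * Real.pi * (m - x) + 6 * Real.pi * ε ∧
      En P x ≤ ENNReal.ofReal (2 * Real.pi * (m - x) + 6 * Real.pi * ε) := by
    intro ε hε
    obtain ⟨L₁, hL⟩ := est h1 h2 h3 hP hm hε
    refine ⟨(hL L₁ le_rfl).1, ?_⟩
    have hU : {U : ℂ | U ∈ St ∧ ‖P U‖ < Real.exp x} = ⋃ n : ℕ, Om P x (L₁ + n) := by
      ext U
      rw [mem_iUnion]
      constructor
      · rintro ⟨hU1, hU2⟩
        obtain ⟨n, hn⟩ := exists_nat_gt (-U.re - L₁)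
        exact ⟨n, hU1, by linarith, hU2⟩
      · rintro ⟨n, hU1, -, hU2⟩
        exact ⟨hU1, hU2⟩
    have hd : Directed (· ⊆ ·) fun n : ℕ => Om P x (L₁ + n) := by
      refine Monotone.directed_le fun n k hnk => ?_
      rintro U ⟨hU1, hU2, hU3⟩
      have : (n : ℝ) ≤ k := by exact_mod_cast hnk
      exact ⟨hU1, by linarith, hU3⟩
    unfold En
    rw [hU, setLIntegral_iUnion_of_directed _ hd]
    refine iSup_le fun n => (hL (L₁ + n) ?_).2
    have : (0 : ℝ) ≤ n := n.cast_nonneg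
    linarith
  have hne : En P x ≠ ⊤ := ne_top_of_le_ne_top ENNReal.ofReal_ne_top (key 1 one_pos).2
  refine ⟨hne, le_of_forall_pos_le_add fun δ hδ => ?_⟩
  obtain ⟨h5, h6⟩ := key (δ / (6 * Real.pi)) (by positivity)
  have h7 := ENNReal.toReal_le_of_le_ofReal h5 h6
  have h8 : 6 * Real.pi * (δ / (6 * Real.pi)) = δ := by field_simp
  rw [h8] at h7
  exact h7

end Pool.Agent.MultS.UB
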