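import Pool.Agent.Work.MP_b17785_an.UB.Stmts

/-!
# The logarithmic area of an annulus
-/

set_option autoImplicit false

open Complex Metric Set Filter Topology MeasureTheory
open scoped ENNReal

namespace Pool.Agent.MultS.UB

namespace AnnX

/-- polar coordinates, with the angle outside -/
lemma polar {H : ℂ → ℝ≥0∞} (hH : Measurable H) :
    ∫⁻ θ in Ioo (-Real.pi) Real.pi, ∫⁻ r in Ioi (0 : ℝ),
      ENNReal.ofReal r * H ((r : ℂ) * exp ((θ : ℂ) * I)) = ∫⁻ z, H z := by
  have hm : Measurable fun p : ℝ × ℝ => ENNReal.ofReal p.1 * H ((p.1 : ℂ) * exp ((p.2 : ℂ) * I)) := by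
    refine (ENNReal.measurable_ofReal.comp measurable_fst).mul (hH.comp ?_)
    exact Continuous.measurable (by fun_prop)
  rw [← Complex.lintegral_comp_polarCoord_symm, polarCoord_target, Measure.volume_eq_prod,
    ← Measure.prod_restrict, lintegral_prod_symm]
  · refine lintegral_congr fun θ => lintegral_congr fun r => ?_
    rw [smul_eq_mul, Complex.polarCoord_symm_apply]
    congr 2
    rw [exp_mul_I]
    push_cast
    rfl
  · refine (Measurable.aemeasurable ?_)
    have : (fun p : ℝ × ℝ => ENNReal.ofReal p.1 • H (Complex.polarCoord.symm p)) =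
        fun p : ℝ × ℝ => ENNReal.ofReal p.1 * H ((p.1 : ℂ) * exp ((p.2 : ℂ) * I)) := by
      funext p
      rw [smul_eq_mul, Complex.polarCoord_symm_apply, exp_mul_I]
      push_cast
      rfl
    rw [this]
    exact hm

/-- the annulus -/
def A (a b : ℝ) : Set ℂ := {w : ℂ | Real.exp a ≤ ‖w‖ ∧ ‖w‖ < Real.exp b}

lemma measA (a b : ℝ) : MeasurableSet (A a b) :=
  (measurableSet_le measurable_const measurable_norm).inter
    (measurableSet_lt measurable_norm measurable_const)

lemma inner (a b : ℝ) (hab : a ≤ b) :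
    ∫⁻ r in Ico (Real.exp a) (Real.exp b), ENNReal.ofReal r⁻¹ = ENNReal.ofReal (b - a) := by
  have h1 : Real.exp a ≤ Real.exp b := Real.exp_le_exp.2 hab
  have h0 : 0 < Real.exp a := Real.exp_pos a
  have hi : IntervalIntegrable (fun r : ℝ => r⁻¹) volume (Real.exp a) (Real.exp b) := by
    refine ContinuousOn.intervalIntegrable ?_
    rw [uIcc_of_le h1]
    exact ContinuousOn.inv₀ continuousOn_id fun x hx => (h0.trans_le hx.1).ne'
  have e : ∫ r in (Real.exp a)..(Real.exp b), r⁻¹ = b - a := by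
    rw [integral_inv_of_pos h0 (Real.exp_pos b), ← Real.exp_sub, Real.log_exp]
  have hi' : IntegrableOn (fun r : ℝ => r⁻¹) (Ioc (Real.exp a) (Real.exp b)) :=
    (intervalIntegrable_iff_integrableOn_Ioc_of_le h1).1 hi
  rw [← e, intervalIntegral.integral_of_le h1, ofReal_integral_eq_lintegral_ofReal hi']
  · exact setLIntegral_congr Ico_ae_eq_Ioc
  · rw [Filter.EventuallyLE, ae_restrict_iff' measurableSet_Ioc]
    refine Filter.Eventually.of_forall fun r hr => ?_
    exact inv_nonneg.2 (h0.trans hr.1).le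

end AnnX

theorem prfAnn : Ann := by
  intro a b hab
  have hA := AnnX.measA a b
  have hH : Measurable ((AnnX.A a b).indicator fun w : ℂ => ENNReal.ofReal ((‖w‖ ^ 2)⁻¹)) :=
    Measurable.indicator (by fun_prop) hA
  have h1 : ∫⁻ w in {w : ℂ | Real.exp a ≤ ‖w‖ ∧ ‖w‖ < Real.exp b},
      ENNReal.ofReal ((‖w‖ ^ 2)⁻¹) =
      ∫⁻ w, (AnnX.A a b).indicator (fun w : ℂ => ENNReal.ofReal ((‖w‖ ^ 2)⁻¹)) w :=
    (lintegral_indicator hA _).symm
  rw [h1, ← AnnX.polar hH]
  have h2 : ∀ θ : ℝ, ∫⁻ r in Ioi (0 : ℝ), ENNReal.ofReal r *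
      (AnnX.A a b).indicator (fun w : ℂ => ENNReal.ofReal ((‖w‖ ^ 2)⁻¹))
        ((r : ℂ) * exp ((θ : ℂ) * I)) = ENNReal.ofReal (b - a) := by
    intro θ
    have h3 : ∀ r ∈ Ioi (0 : ℝ), ENNReal.ofReal r *
        (AnnX.A a b).indicator (fun w : ℂ => ENNReal.ofReal ((‖w‖ ^ 2)⁻¹))
        ((r : ℂ) * exp ((θ : ℂ) * I)) =
        (Ico (Real.exp a) (Real.exp b)).indicator (fun r => ENNReal.ofReal r⁻¹) r := by
      intro r hr
      have hr0 : (0 : ℝ) < r := hr
      have hn : ‖(r : ℂ) * exp ((θ : ℂ) * I)‖ = r := by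
        rw [norm_mul, norm_exp_ofReal_mul_I, mul_one, norm_real, Real.norm_eq_abs, abs_of_pos hr0]
      by_cases hm : r ∈ Ico (Real.exp a) (Real.exp b)
      · rw [indicator_of_mem hm, indicator_of_mem (show _ ∈ AnnX.A a b by
          refine ⟨?_, ?_⟩
          · rw [hn]; exact hm.1
          · rw [hn]; exact hm.2), hn, ← ENNReal.ofReal_mul hr0.le]
        congr 1
        field_simp
      · rw [indicator_of_notMem hm, indicator_of_notMem (show _ ∉ AnnX.A a b by
          rintro ⟨h4, h5⟩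
          rw [hn] at h4 h5
          exact hm ⟨h4, h5⟩), mul_zero]
    rw [setLIntegral_congr_fun measurableSet_Ioi h3, ← lintegral_indicator measurableSet_Ioi,
      indicator_indicator, inter_eq_right.2, lintegral_indicator measurableSet_Ico,
      AnnX.inner a b hab]
    intro r hr
    exact (Real.exp_pos a).trans_le hr.1
  rw [lintegral_congr h2, lintegral_const, Measure.restrict_apply_univ, Real.volume_Ioo,
    ← ENNReal.ofReal_mul (by linarith)]
  refine ENNReal.ofReal_le_ofReal (le_of_eq ?_)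
  ring

end Pool.Agent.MultS.UB
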