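import Pool.Agent.Work.MP_b17785_an.UB.Pars

/-!
# The Dirichlet integral of a polynomial
-/

set_option autoImplicit false

open Complex Metric Set Filter Topology MeasureTheory
open scoped ENNReal

namespace Pool.Agent.MultS.UB

namespace ParsPX

open ParsX

lemma int_p (hO : Lip.Orth) (c : ℕ → ℂ) (N : ℕ) {s : ℝ} (hs0 : 0 < s) (hs1 : s < 1) :
    ∫ ζ in ball (0 : ℂ) s, ‖p c N ζ‖ ^ 2 = E c N s := by
  have hpc : Continuous (p c N) := (diff_p c N).continuous
  have h2 := conj_int hO (p c N) (diff_p c N).differentiableOn s hs0 hs1 c N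
    (fun m hm => tc_p c N m hm)
  have := congrArg Complex.re h2
  rw [Complex.ofReal_re] at this
  rw [← this]
  have hi : IntegrableOn (fun ζ => p c N ζ * (starRingEnd ℂ) (p c N ζ)) (ball (0 : ℂ) s) := by
    apply int_on
    exact (hpc.mul (Complex.continuous_conj.comp hpc)).continuousOn
  have h3 := integral_re hi
  refine Eq.trans ?_ h3
  apply integral_congr_ae
  filter_upwards with ζ
  rw [Complex.mul_conj, Complex.normSq_eq_norm_sq]
  exact (Complex.ofReal_re _).symm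

lemma E_mono (c : ℕ → ℂ) (N : ℕ) {s : ℝ} (hs0 : 0 < s) (hs1 : s < 1) : E c N s ≤ E c N 1 := by
  unfold E
  refine Finset.sum_le_sum fun m _ => ?_
  have hpi := Real.pi_pos
  have h1 : s ^ (2 * m + 2) ≤ 1 ^ (2 * m + 2) := pow_le_pow_left₀ hs0.le hs1.le _
  gcongr

lemma lint_p (hO : Lip.Orth) (c : ℕ → ℂ) (N : ℕ) :
    ∫⁻ ζ in ball (0 : ℂ) 1, ENNReal.ofReal (‖p c N ζ‖ ^ 2) ≤ ENNReal.ofReal (E c N 1) := by
  have hU : ball (0 : ℂ) 1 = ⋃ n : ℕ, ball (0 : ℂ) (1 - 1 / ((n : ℝ) + 2)) := by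
    ext z
    rw [mem_iUnion, mem_ball_zero_iff]
    constructor
    · intro hz
      obtain ⟨n, hn⟩ := exists_nat_gt (1 / (1 - ‖z‖))
      refine ⟨n, ?_⟩
      rw [mem_ball_zero_iff]
      have h1 : 0 < 1 - ‖z‖ := by linarith
      have h2 : 1 / ((n : ℝ) + 2) < 1 - ‖z‖ := by
        rw [div_lt_iff₀ (by positivity)]
        rw [div_lt_iff₀ h1] at hn
        nlinarith
      linarith
    · rintro ⟨n, hn⟩
      rw [mem_ball_zero_iff] at hn
      have : 0 < 1 / ((n : ℝ) + 2) := by positivity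
      linarith
  have hd : Directed (· ⊆ ·) fun n : ℕ => ball (0 : ℂ) (1 - 1 / ((n : ℝ) + 2)) := by
    refine Monotone.directed_le fun n k hnk => ball_subset_ball ?_
    have h1 : (n : ℝ) ≤ k := by exact_mod_cast hnk
    have h2 : 1 / ((k : ℝ) + 2) ≤ 1 / ((n : ℝ) + 2) :=
      one_div_le_one_div_of_le (by positivity) (by linarith)
    linarith
  rw [hU, setLIntegral_iUnion_of_directed _ hd]
  refine iSup_le fun n => ?_
  have hn0 : (0 : ℝ) ≤ n := n.cast_nonneg
  have hs0 : 0 < 1 - 1 / ((n : ℝ) + 2) := by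
    rw [sub_pos, div_lt_one (by linarith)]
    linarith
  have hs1 : 1 - 1 / ((n : ℝ) + 2) < 1 := by
    have : 0 < 1 / ((n : ℝ) + 2) := by positivity
    linarith
  have hpc : Continuous (p c N) := (diff_p c N).continuous
  have i1 : IntegrableOn (fun ζ => ‖p c N ζ‖ ^ 2) (ball (0 : ℂ) (1 - 1 / ((n : ℝ) + 2))) :=
    int_onR (hpc.norm.pow 2).continuousOn
  rw [← ofReal_integral_eq_lintegral_ofReal i1 (Eventually.of_forall fun _ => sq_nonneg _),
    int_p hO c N hs0 hs1]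
  exact ENNReal.ofReal_le_ofReal (E_mono c N hs0 hs1)

lemma deriv_poly (a : ℕ → ℂ) (M : ℕ) (z : ℂ) :
    deriv (fun z => ∑ m ∈ Finset.range (M + 1), a m * z ^ m) z =
      p (fun m => ((m : ℂ) + 1) * a (m + 1)) M z := by
  have h : HasDerivAt (fun z => ∑ m ∈ Finset.range (M + 1), a m * z ^ m)
      (∑ m ∈ Finset.range (M + 1), a m * ((m : ℂ) * z ^ (m - 1))) z :=
    HasDerivAt.fun_sum fun m _ => (hasDerivAt_pow m z).const_mul (a m)
  rw [h.deriv, Finset.sum_range_succ']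
  simp only [Nat.cast_zero, zero_mul, mul_zero, add_zero, Nat.add_sub_cancel]
  unfold p
  refine Finset.sum_congr rfl fun m _ => ?_
  push_cast
  ring

end ParsPX

open ParsX ParsPX in
/-- The Dirichlet integral of a polynomial. -/
theorem dir_poly (hO : Lip.Orth) (a : ℕ → ℂ) (N : ℕ) :
    ∫⁻ z in ball (0 : ℂ) 1,
      ENNReal.ofReal (‖deriv (fun z => ∑ m ∈ Finset.range N, a m * z ^ m) z‖ ^ 2) ≤
    ENNReal.ofReal (Real.pi * ∑ m ∈ Finset.range N, (m : ℝ) * ‖a m‖ ^ 2) := by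
  rcases Nat.eq_zero_or_pos N with h0 | h0
  · subst h0
    simp
  obtain ⟨M, rfl⟩ : ∃ M, N = M + 1 := ⟨N - 1, by omega⟩
  have h1 := lint_p hO (fun m => ((m : ℂ) + 1) * a (m + 1)) M
  have h2 : ∫⁻ z in ball (0 : ℂ) 1, ENNReal.ofReal
      (‖deriv (fun z => ∑ m ∈ Finset.range (M + 1), a m * z ^ m) z‖ ^ 2) =
      ∫⁻ z in ball (0 : ℂ) 1, ENNReal.ofReal
        (‖p (fun m => ((m : ℂ) + 1) * a (m + 1)) M z‖ ^ 2) := by
    refine lintegral_congr fun z => ?_
    rw [deriv_poly]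
  rw [h2]
  refine h1.trans (ENNReal.ofReal_le_ofReal (le_of_eq ?_))
  unfold E
  rw [Finset.sum_range_succ']
  simp only [Nat.cast_zero, zero_mul, add_zero, one_pow, mul_one]
  rw [Finset.mul_sum]
  refine Finset.sum_congr rfl fun m _ => ?_
  have : ‖(m : ℂ) + 1‖ = (m : ℝ) + 1 := by
    rw [show (m : ℂ) + 1 = ((m + 1 : ℕ) : ℂ) by push_cast; ring, Complex.norm_natCast]
    push_cast; ring
  rw [norm_mul, this]
  have h3 : (m : ℝ) + 1 ≠ 0 := by positivity
  push_cast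
  field_simp

end Pool.Agent.MultS.UB
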