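import Pool.Agent.Work.MP_b17785_an.UB.Stmts

/-!
# The explicit form of the Lipschitz norm of multipliers of `S`, upper bound: the functional
-/

set_option autoImplicit false

open Complex Metric Set Filter Topology MeasureTheory
open scoped ENNReal

namespace Pool.Agent.MultS.UB

/-- The power series of `lam` converges in the disk. -/
def Sm (lam : ℕ → ℂ) : Prop :=
  ∀ r : ℝ, 0 ≤ r → r < 1 → Summable (fun n : ℕ => ‖lam n‖ * r ^ n)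

/-- The unit ball of `H^∞ ∩ D` (bounded functions with finite Dirichlet integral). -/
def Adm (A : ℂ → ℂ) : Prop :=
  DifferentiableOn ℂ A (ball 0 1) ∧ (∀ z ∈ ball (0 : ℂ) 1, ‖A z‖ ≤ 1) ∧
    ∀ N : ℕ, ∑ m ∈ Finset.range N, (m : ℝ) * ‖tc A m‖ ^ 2 ≤ 1

/-- The functional `LL lam (kb * A) x` in terms of the coefficients `a` of `A`. -/
noncomputable def KK (lam a : ℕ → ℂ) (x : ℂ) : ℂ :=
  ∑' n : ℕ, ((n : ℂ) + 1) * lam (n + 1) *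
    (∑ m ∈ Finset.range (n + 1), ((n : ℂ) + 1 - m) * a m) * x ^ n

/-- [V1] The coefficients of `kb * A`. -/
def CoK : Prop :=
  ∀ A : ℂ → ℂ, DifferentiableOn ℂ A (ball 0 1) → ∀ n : ℕ,
    tc (fun z => kb z * A z) n = ∑ m ∈ Finset.range n, ((n : ℂ) - m) * tc A m

/-- [V2] Reduction to polynomials. -/
def Appr : Prop :=
  ∀ lam : ℕ → ℂ, Sm lam → ∀ x ∈ ball (0 : ℂ) 1, ∀ B : ℝ,
    (∀ (a : ℕ → ℂ) (N : ℕ), (∀ m, N ≤ m → a m = 0) →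
      (∀ z ∈ ball (0 : ℂ) 1, ‖∑ m ∈ Finset.range N, a m * z ^ m‖ ≤ 1) →
      ∑ m ∈ Finset.range N, (m : ℝ) * ‖a m‖ ^ 2 ≤ 1 → ‖KK lam a x‖ ≤ B) →
    ∀ A : ℂ → ℂ, Adm A → ‖KK lam (tc A) x‖ ≤ B

/-- [V3] The upper bound (uses Dir, Pars, CoK). -/
def UBm : Prop :=
  ∃ C : ℝ, 0 < C ∧ ∀ lam : ℕ → ℂ, Sm lam → ∀ B : ℝ,
    (∀ x ∈ ball (0 : ℂ) 1, ∀ A : ℂ → ℂ, Adm A → ‖KK lam (tc A) x‖ ≤ B) →
    ∀ f : ℂ → ℂ, Sc f → ∀ x ∈ ball (0 : ℂ) 1, ‖Lip.LL lam f x‖ ≤ C * B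

end Pool.Agent.MultS.UB
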